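import Pool.Agent.TH820.LG.TB1

/-!
# The Tauberian Tate conjecture over the intermediate fields of a Galois extension

`X` is a smooth projective variety over a number field `K`, `m ≤ dim X`, and `V = A^m(X_{K̄}) ⊗ ℚ`, with the
action of `G = Gal(K̄/K)`; for `m = 1`, the question, it is `NS(X_{K̄}) ⊗ ℚ`.  For every number field
`E ⊇ K` the rank of `A^m(X_E)` is the dimension of `V^{Gal(K̄/E)}`, and the conjecture for `X_E` says that
the averages `T⁻¹ ∑_{q_w ≤ T} b_w log(q_w) / q_w^m` of the traces of the Frobenius on `H^{2m}(X_E)` tend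
to it.  For a representation `χ` of a finite quotient of `G` the averages of the traces on
`H^{2m}(X) ⊗ χ` should tend to `dim (V ⊗ χ)^G`.  The definitions are in `Pool.Agent.TH820.LG.TBDefs`,
`Pool.Agent.TH820.LG.AvDefs`, `Pool.Agent.TH820.LG.NilTowerDefs`, `Pool.Agent.TH820.LG.NilDefs`,
`Pool.Agent.TH820.LG.TowerDefs`, `Pool.Agent.TH820.LG.ExtDefs`, `Pool.Agent.TH820.LG.Defs`,
`Pool.Agent.W353.SP.NDefs`, `Pool.Agent.W353.AT.TDefs`, `Pool.Agent.W353.AT.Defs`,
`Pool.Agent.W353.TD.Defs` and `Pool.Agent.W353.EF.Defs`.
-/

set_option autoImplicit false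

namespace Pool.Agent.Results.MP_4589ac_nt.TowerAverages

open NumberField Pool.Agent.W353.TD

/-- **The Tauberian averages over towers over nilpotent extensions.**  For every `s` there is `n₀` with
the following property.  Let `X` be a projective variety of dimension `d` over a number field `K`, `m ≤ d`,
`N = b_{2m}(X)`, `V` a part of `H^{2m}(X)(m)`, for instance `V = NS(X_{K̄}) ⊗ ℚ` for `m = 1`, and
`N - dim V ≤ s`.  Let `n ≥ n₀` and let `F` be a finite Galois extension of `K` whose group has a series of
normal subgroups with factors that are quotients of `SL_k(𝔽)` or `A_k`, `k ≥ n` (with the action of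
`Gal(F/K)` through `GL_k(𝔽)` or `S_k`), down to a nilpotent quotient `Γ` such that all primes dividing
`|Γ / Z(Γ)|` are larger than `4s²`.  If the averages for `H^{2m}(X) ⊗ χ` have integral limits for all
irreducible `χ` of `Gal(F/K)` of dimension `≠ 1`, then the limits are the numbers `dim (V ⊗ χ)^G`, and for
any field `E` with `K ⊆ E ⊆ F` the difference between `average - rank` over `E` and `average - rank` over
the largest subfield of `E` that is abelian over `K` tends to `0`. -/
theorem result (s : ℕ) :
    ∃ n₀ : ℕ, ∀ (K : Type) [Field K] [NumberField K] (l d m N : ℕ)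
      (X : Set (MvPolynomial (Fin l) (𝓞 K))) (V : Type) [AddCommGroup V] [Module ℚ V]
      [FiniteDimensional ℚ V] (ρ : Representation ℚ Gal(AlgebraicClosure K/K) V), m ≤ d →
      IsPart X d m N ρ → N ≤ Module.finrank ℚ V + s →
      Pool.Agent.TH820.LG.NilpotentTowerAverages X d m N ρ s n₀ :=
  Pool.Agent.TH820.LG.nilTowerAverages s

end Pool.Agent.Results.MP_4589ac_nt.TowerAverages
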